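import Mathlib

set_option autoImplicit false

namespace Pool.Agent.Results.MP_aa870c_nt.Counterexample

/-- All hypotheses that the question Q1 puts on `(a, b, c, p, q, r)`: `a, b, c > 1`,
`gcd(a, b, c) = 1`, `min {p, q, r} > 1`, `a ^ p + b ^ q = c ^ r`, `a < b`,
`(a, b, c) ≠ (2, 7, 3)`, `(a, b, c) ≠ (2, 2 ^ k - 1, 2 ^ k + 1)` for every positive integer `k`
(written additively as `b + 1 = 2 ^ k`, `c = 2 ^ k + 1`), and not both `q = r = 2` and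
`c = b + 1`. -/
def Hypotheses (a b c p q r : ℕ) : Prop :=
  1 < a ∧ 1 < b ∧ 1 < c ∧ Nat.gcd a (Nat.gcd b c) = 1 ∧ 1 < p ∧ 1 < q ∧ 1 < r ∧
    a ^ p + b ^ q = c ^ r ∧ a < b ∧
    ¬ (a = 2 ∧ b = 7 ∧ c = 3) ∧
    (∀ k : ℕ, 0 < k → ¬ (a = 2 ∧ b + 1 = 2 ^ k ∧ c = 2 ^ k + 1)) ∧
    ¬ ((q = 2 ∧ r = 2) ∧ c = b + 1)

/-- The permuted equation `c ^ X + b ^ Y = a ^ Z` has a solution in positive integers. -/
def ShuffleSolvable (a b c : ℕ) : Prop :=
  ∃ X Y Z : ℕ, 0 < X ∧ 0 < Y ∧ 0 < Z ∧ c ^ X + b ^ Y = a ^ Z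

/-- Miyazaki's question Q1 has a negative answer: the primes `(a, b, c) = (2, 11, 5)` with
`(p, q, r) = (2, 2, 3)` satisfy all hypotheses of Q1 (`2 ^ 2 + 11 ^ 2 = 5 ^ 3`), yet the permuted
equation `c ^ X + b ^ Y = a ^ Z` is solvable in positive integers (`5 + 11 = 2 ^ 4`). -/
theorem result :
    Nat.Prime 2 ∧ Nat.Prime 11 ∧ Nat.Prime 5 ∧ Hypotheses 2 11 5 2 2 3 ∧
      ShuffleSolvable 2 11 5 := by
  refine ⟨by norm_num, by norm_num, by norm_num, ?_, ?_⟩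
  · refine ⟨by norm_num, by norm_num, by norm_num, by norm_num, by norm_num, by norm_num,
      by norm_num, by norm_num, by norm_num, by norm_num, ?_, by norm_num⟩
    rintro k - ⟨-, h, h'⟩
    omega
  · exact ⟨1, 1, 4, by norm_num, by norm_num, by norm_num, by norm_num⟩

end Pool.Agent.Results.MP_aa870c_nt.Counterexample
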